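import Pool.Agent.Lib.MP_b5021c_nt.IfaceK2

/-!
# Row LID: the limit polynomial
-/

namespace Pool.Agent.MP_b5021c_nt.H62

open Polynomial Filter Topology Pool.Agent.MP_b5021c_nt

/-- The quotient sequence of `Q / Q`. -/
theorem quot_self {a : ℕ → ℤ} {Q : ℤ[X]} (hQ : Q.coeff 0 = 1) (h : IsQuot a Q Q) (j : ℕ) :
    a j = if j = 0 then 1 else 0 := by
  have hQ0 : (Q : PowerSeries ℤ) ≠ 0 := by
    intro h0
    have h1 := congrArg (fun p => PowerSeries.coeff 0 p) h0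
    simp [hQ] at h1
  have h1 : PowerSeries.mk a = 1 := by
    have h2 : PowerSeries.mk a * (Q : PowerSeries ℤ) = 1 * (Q : PowerSeries ℤ) := by
      rw [one_mul]; exact h
    exact mul_right_cancel₀ hQ0 h2
  have h3 := congrArg (fun p => PowerSeries.coeff j p) h1
  simpa [PowerSeries.coeff_one] using h3

/-- The sequence `(1, 0, 0, ...)` is the quotient `Q / Q`. -/
theorem self_quot {b : ℕ → ℤ} {Q : ℤ[X]} (h : ∀ j, b j = if j = 0 then 1 else 0) :
    IsQuot b Q Q := by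
  have h1 : PowerSeries.mk b = 1 := by
    ext j
    rw [PowerSeries.coeff_mk, PowerSeries.coeff_one, h j]
  unfold IsQuot
  rw [h1, one_mul]

/-- `LID`. -/
theorem lid (psq : PsqS) (coe : CoeS) (bpo : BpoS) (bou : BouS) (sub : SubS) (bpl : BplS)
    (pol : PolS) (lpf : LpfS) (qex : QexS) : LidS := by
  intro ι _ _ D t θ hfree hone ht hθ
  -- the quotient sequences
  have hex : ∀ n S, ∃ a : ℕ → ℤ, IsQuot a (D n S) (D n ∅) := fun n S =>
    (qex (D n S) (D n ∅) (hone n).2.1).exists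
  choose a ha using hex
  -- the bound on the circle
  have hle : ∀ n S (z : ℂ), ‖z‖ = 1 → ‖pv (D n S) z‖ ≤ ‖pv (D n ∅) z‖ := by
    intro n S z hz
    exact coe ι (fun T => pv (D n T) z) (fun w hw => hfree n z w hz hw) S
  have hbp : ∀ n S, ∃ c h, BP (a n S) c (t n) h := fun n S =>
    bpo (D n ∅) (D n S) (t n) (a n S) (hone n) (ha n S) (hle n S)
  -- the bound for `t`
  obtain ⟨B, hB⟩ : ∃ B : ℝ, ∀ n, t n ≤ B := by
    obtain ⟨B, hB⟩ := ht.bddAbove_range
    exact ⟨B, fun n => hB ⟨n, rfl⟩⟩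
  have h1t : ∀ n, 1 < t n := fun n => (hone n).1
  have hbd : ∀ n (S : Finset ι) j, |a n S j| ≤ ((⌈B ^ (j + 1) + 1⌉₊ : ℕ) : ℤ) := by
    intro n S j
    obtain ⟨c, h, hch⟩ := hbp n S
    have h1 := bou _ _ _ _ hch j
    have h2 : t n ^ (j + 1) ≤ B ^ (j + 1) :=
      pow_le_pow_left₀ (by linarith [h1t n]) (hB n) _
    have h3 : |(a n S j : ℝ)| ≤ (⌈B ^ (j + 1) + 1⌉₊ : ℝ) :=
      (h1.trans (by linarith)).trans (Nat.le_ceil _)
    have h4 : ((|a n S j| : ℤ) : ℝ) ≤ (((⌈B ^ (j + 1) + 1⌉₊ : ℕ) : ℤ) : ℝ) := by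
      push_cast
      exact h3
    exact_mod_cast h4
  obtain ⟨φ, b, hφ, hb⟩ := sub (Finset ι) a (fun j => ⌈B ^ (j + 1) + 1⌉₊) hbd
  have hθ1 : 1 < θ := hθ.1
  have htφ : Tendsto (fun n => t (φ n)) atTop (𝓝 θ) := ht.comp hφ.tendsto_atTop
  -- the limits are `BP` sequences
  have hbb : ∀ S, ∃ c h, BP (b S) c θ h := by
    intro S
    choose c h hch using fun n => hbp (φ n) S
    exact bpl (fun n => a (φ n) S) c (fun n => t (φ n)) h (b S) θ hch htφ hθ1 (hb S)
  have hQ : OneZero (minpoly ℤ θ).reverse θ := psq θ hθ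
  have hY : ∀ S, ∃ Y : ℤ[X], IsQuot (b S) Y (minpoly ℤ θ).reverse := by
    intro S
    obtain ⟨c, h, hch⟩ := hbb S
    exact pol _ θ (b S) c h hQ hch
  choose Y hY using hY
  have hb0 : ∀ j, b ∅ j = if j = 0 then 1 else 0 := by
    intro j
    obtain ⟨n, hn⟩ := (hb ∅ j).exists
    rw [← hn]
    exact quot_self (hone (φ n)).2.1 (ha (φ n) ∅) j
  refine ⟨φ, fun S => if S = ∅ then (minpoly ℤ θ).reverse else Y S, a, b, hφ, ?_, ?_, ha, ?_,
    hbp, hb⟩
  · refine lpf ι (fun n => D (φ n)) _ (fun n => t (φ n)) θ (fun n => a (φ n)) b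
      (fun n => hfree (φ n)) (fun n => hone (φ n)) ?_ (fun n S => ha (φ n) S) ?_ hb
    · simpa using hQ
    · intro S
      by_cases hS : S = ∅
      · subst hS
        simpa using self_quot (Q := (minpoly ℤ θ).reverse) hb0
      · simpa [hS] using hY S
  · simpa using hQ
  · intro S
    by_cases hS : S = ∅
    · subst hS
      simpa using self_quot (Q := (minpoly ℤ θ).reverse) hb0
    · simpa [hS] using hY S

end Pool.Agent.MP_b5021c_nt.H62
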